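import Mathlib
import Pool.Agent.R762.Mx12
import Pool.Agent.H994.PSC.Rat

/-! MP_8152b2_gt (Q1): for every closure sequence `w` there is a polynomial `f (R, r, d)` which
vanishes at the data of an annulus if and only if the chain for `w` closes in it.  The definitions
(annuli, inscribed circles, tangent chords, chains, closure sequences) are in
`Pool.Agent.R762.Mx4`. -/

set_option autoImplicit false

namespace Pool.Agent.Results.MP_8152b2_gt.PolynomialCondition

open Pool.Agent.R762.Mx Real

theorem listed_facts {w : List Letter} (h : Listed w) :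
    3 ≤ w.length ∧ (∀ i, ltr w (i + 2) = ltr w i) ∧
    ∀ (R d : ℝ), Adm R d → ∀ (x0 : ℝ) (k : ℤ),
      orb R d (ltr w) x0 w.length = x0 + 2 * π * k →
      ∀ x, orb R d (ltr w) x w.length = x + 2 * π * k := by
  have hlast : ltr w w.length = ltr w 0 := by simpa using ltr_add w 0
  rcases h with ⟨n, hn, rfl | rfl⟩ | ⟨n, hn, rfl | rfl⟩
  · refine ⟨by simpa using hn, fun i => by rw [ltr_replicate _ (by omega),
      ltr_replicate _ (by omega)], fun R d h x0 k h0 x =>
      porism_s h _ (fun i => ltr_replicate _ (by omega) _ _) _ x0 k h0 x⟩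
  · refine ⟨by simpa using hn, fun i => by rw [ltr_replicate _ (by omega),
      ltr_replicate _ (by omega)], fun R d h x0 k h0 x =>
      porism_c h _ (fun i => ltr_replicate _ (by omega) _ _) _ x0 k h0 x⟩
  · refine ⟨by rw [flatten_length]; omega, fun i => ?_, fun R d h x0 k h0 x =>
      porism_alt h _ (fun i => ?_) _ hlast x0 k h0 x⟩
    · rw [ltr_flatten _ (by omega), ltr_flatten _ (by omega)]
      have : (i + 2) % 2 = i % 2 := by omega
      rw [this]
    · rw [ltr_flatten _ (by omega), ltr_flatten _ (by omega)]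
      rcases Nat.mod_two_eq_zero_or_one i with h1 | h1
      · rw [if_pos h1, if_neg (by omega)]; decide
      · rw [if_neg (by omega), if_pos (by omega)]; decide
  · refine ⟨by rw [flatten_length]; omega, fun i => ?_, fun R d h x0 k h0 x =>
      porism_alt h _ (fun i => ?_) _ hlast x0 k h0 x⟩
    · rw [ltr_flatten _ (by omega), ltr_flatten _ (by omega)]
      have : (i + 2) % 2 = i % 2 := by omega
      rw [this]
    · rw [ltr_flatten _ (by omega), ltr_flatten _ (by omega)]
      rcases Nat.mod_two_eq_zero_or_one i with h1 | h1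
      · rw [if_pos h1, if_neg (by omega)]; decide
      · rw [if_neg (by omega), if_pos (by omega)]; decide

/-- chains of the standard annulus are carried back to the given annulus -/
theorem transport_back (a : Annulus) (w : List Letter) {c : ℂ} (hc : c ≠ 0)
    (h : Adm (a.R / a.r) (dist a.O a.I / a.r))
    (ho : sim c a.I '' a.outer = (std _ _ h).outer) (hi : sim c a.I '' a.inner = (std _ _ h).inner)
    (hr : ∀ z, sim c a.I z ∈ (std _ _ h).region ↔ z ∈ a.region) (u : ℕ → Set ℂ)
    (hu : IsChain (std _ _ h) w u) :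
    IsChain a w (fun i => sim c⁻¹ (-(c * a.I)) '' u i) := by
  have hc' : c⁻¹ ≠ 0 := inv_ne_zero hc
  have e1 : ∀ z, sim c⁻¹ (-(c * a.I)) (sim c a.I z) = z := by
    intro z
    rw [sim_apply, sim_apply]
    field_simp
    ring
  have e2 : ∀ z, sim c a.I (sim c⁻¹ (-(c * a.I)) z) = z := by
    intro z
    rw [sim_apply, sim_apply]
    field_simp
    ring
  have e3 : ∀ s : Set ℂ, sim c⁻¹ (-(c * a.I)) '' (sim c a.I '' s) = s := by
    intro s
    rw [Set.image_image]
    simp only [e1, Set.image_id']
  apply transport (std _ _ h) a c⁻¹ hc' (-(c * a.I)) _ _ _ w u hu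
  · rw [← ho, e3]
  · rw [← hi, e3]
  · intro z
    have := hr (sim c⁻¹ (-(c * a.I)) z)
    rw [e2] at this
    exact this.symm

/-- **Q1.** For every closure sequence `w` there is a polynomial `f` in three variables such that
for every annulus (outer radius `R`, inner radius `r`, distance `d` of the centres): some `w`-chain
closes if and only if `f (R, r, d) = 0`, and every `w`-chain closes if and only if
`f (R, r, d) = 0`. -/
theorem result (w : List Letter) (hne : w ≠ []) (hw : IsClosureSeq w) :
    ∃ f : MvPolynomial (Fin 3) ℝ, ∀ a : Annulus,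
      ((∃ u, IsChain a w u ∧ Closes w u) ↔
        MvPolynomial.eval ![a.R, a.r, dist a.O a.I] f = 0) ∧
      ((∀ u, IsChain a w u → Closes w u) ↔
        MvPolynomial.eval ![a.R, a.r, dist a.O a.I] f = 0) := by
  obtain ⟨hn, hper, hpor⟩ := listed_facts (classification w hne hw)
  have hlast : ltr w w.length = ltr w 0 := by simpa using ltr_add w 0
  obtain ⟨f, hf⟩ := Pool.Agent.H994.PSC.Rat.closing_poly (ltr w) hper w.length
  refine ⟨f, fun a => ?_⟩
  have hfa := hf a.R a.r (dist a.O a.I) a.r_pos dist_nonneg (by linarith [a.inside])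
  obtain ⟨c, hc, h, ho, hi, hr⟩ := normalise a
  -- a chain which closes gives the condition
  have h1 : (∃ u, IsChain a w u ∧ Closes w u) →
      MvPolynomial.eval ![a.R, a.r, dist a.O a.I] f = 0 := by
    rintro ⟨u, hu, hcl⟩
    rw [hfa]
    have hu' := transport a (std _ _ h) c hc a.I ho hi hr w u hu
    obtain ⟨x, hx⟩ := closes_iff h w (by omega) _ hu'
    obtain ⟨k, hk⟩ := hx.1 ((closes_image hc a.I w u).2 hcl)
    have h2 := hpor _ _ h x k hk 0
    rw [h2, zero_add, cos_eq_one_iff]
    exact ⟨k, by ring⟩
  -- the condition gives a closing chain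
  have h2 : MvPolynomial.eval ![a.R, a.r, dist a.O a.I] f = 0 →
      ∃ u, IsChain a w u ∧ Closes w u := by
    intro h3
    rw [hfa, cos_eq_one_iff] at h3
    obtain ⟨k, hk⟩ := h3
    have hch := isChain_orb h w 0
    have hcl : Closes w (fun i => elt (a.R / a.r) (dist a.O a.I / a.r) (ltr w i)
        (orb (a.R / a.r) (dist a.O a.I / a.r) (ltr w) 0 i)) := by
      unfold Closes
      show elt _ _ (ltr w w.length) _ = elt _ _ (ltr w 0) (orb _ _ _ 0 0)
      rw [hlast, ← hk]
      have := elt_int (a.R / a.r) (dist a.O a.I / a.r) (ltr w 0) 0 k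
      rw [show (0 : ℝ) + 2 * π * k = k * (2 * π) by ring] at this
      rw [this]
      rfl
    exact ⟨_, transport_back a w hc h ho hi hr _ hch,
      (closes_image (inv_ne_zero hc) _ w _).2 hcl⟩
  refine ⟨⟨h1, h2⟩, ⟨fun h3 => ?_, fun h3 => hw.1 a (h2 h3)⟩⟩
  have hch := transport_back a w hc h ho hi hr _ (isChain_orb h w 0)
  exact h1 ⟨_, hch, h3 _ hch⟩

end Pool.Agent.Results.MP_8152b2_gt.PolynomialCondition
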